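import Pool.Agent.Helper70.Matching.Specs1

/-!
Packet M-A2: the flat scale argument.
-/

set_option autoImplicit false
set_option linter.unusedSectionVars false
open Finset
open Pool.Agent.Helper70.Matching

namespace Pool.Agent.Helper32.Matching

noncomputable section

variable {K α κ : Type} [Fintype K] [DecidableEq K] [Fintype α] [DecidableEq κ]
  {w : K → α → ℝ}

/-- the box of level `i` with name `c` -/
def QQ (p : ℕ → K → κ) (i : ℕ) (c : κ) : Finset K := univ.filter (fun k => p i k = c)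

/-- total variance of the projections on the boxes of level `i` -/
def VV (w : K → α → ℝ) (p : ℕ → K → κ) (G : (K → α) → ℝ) (i : ℕ) : ℝ :=
  ∑ c ∈ univ.image (p i), Vr w (PE w (QQ p i c) G)

/-- children -/
def TT (p : ℕ → K → κ) (i : ℕ) (c : κ) : Finset κ :=
  (univ.filter (fun k' => p (i + 1) k' = c)).image (p i)

/-- the defect -/
def RR (w : K → α → ℝ) (p : ℕ → K → κ) (G : (K → α) → ℝ) (i : ℕ) (c : κ) : ℝ :=
  Ex w (fun u => ((PE w (QQ p (i + 1) c) G u - Ex w G)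
    - ∑ c' ∈ TT p i c, (PE w (QQ p i c') G u - Ex w G)) ^ 2)

theorem RR_nonneg (hw : IsWt w) (p : ℕ → K → κ) (G : (K → α) → ℝ) (i : ℕ) (c : κ) :
    0 ≤ RR w p G i c := Ex_nonneg hw fun _ => sq_nonneg _

theorem VV_nonneg (hw : IsWt w) (p : ℕ → K → κ) (G : (K → α) → ℝ) (i : ℕ) :
    0 ≤ VV w p G i := sum_nonneg fun _ _ => Vr_nonneg hw _

theorem PE_sub_le (hw : IsWt w) {G : (K → α) → ℝ} {p : ℕ → K → κ} {i : ℕ} {c : κ} {D : ℝ}
    (hG : ∀ u u' : K → α, (∀ k, p i k ≠ c → u k = u' k) → |G u - G u'| ≤ D) (u : K → α) :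
    |PE w (QQ p i c) G u - Ex w G| ≤ D := by
  have h1 : ∀ u', |PE w (QQ p i c) G u - PE w (QQ p i c) G u'| ≤ D := by
    intro u'
    have h2 : PE w (QQ p i c) G u - PE w (QQ p i c) G u' =
        Ex w (fun v => G ((QQ p i c).piecewise u v) - G ((QQ p i c).piecewise u' v)) := by
      rw [Ex_sub]; rfl
    rw [h2]
    refine (abs_Ex_le hw _).trans (Ex_le_of_le hw fun v => hG _ _ fun k hk => ?_)
    have hk' : k ∉ QQ p i c := by simp [QQ, hk]
    simp [Finset.piecewise, hk']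
  rw [← Ex_PE hw (QQ p i c) G]
  have h3 : PE w (QQ p i c) G u - Ex w (PE w (QQ p i c) G) =
      Ex w (fun u' => PE w (QQ p i c) G u - PE w (QQ p i c) G u') := by
    rw [Ex_sub, Ex_const hw]
  rw [h3]
  exact (abs_Ex_le hw _).trans (Ex_le_of_le hw fun v => h1 v)

theorem Vr_PE (hw : IsWt w) (A : Finset K) (G : (K → α) → ℝ) :
    Vr w (PE w A G) = Ex w (fun u => (PE w A G u - Ex w G) ^ 2) := by
  unfold Vr
  rw [Ex_PE hw]

theorem QQ_disj {p : ℕ → K → κ} (i : ℕ) {c c' : κ} (h : c ≠ c') :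
    Disjoint (QQ p i c) (QQ p i c') := by
  rw [Finset.disjoint_left]
  intro k hk hk'
  simp only [QQ, mem_filter, mem_univ, true_and] at hk hk'
  exact h (hk.symm.trans hk')

theorem QQ_sub {p : ℕ → K → κ} {m J : ℕ} (hp : Hier p m J) {i : ℕ} (hi : i < J) {c c' : κ}
    (h : c' ∈ TT p i c) : QQ p i c' ⊆ QQ p (i + 1) c := by
  intro k hk
  simp only [TT, mem_image, mem_filter, mem_univ, true_and] at h
  obtain ⟨k', h1, h2⟩ := h
  simp only [QQ, mem_filter, mem_univ, true_and] at hk ⊢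
  rw [← h1]
  exact hp.refine i hi k k' (hk.trans h2.symm)

theorem sum_TT {p : ℕ → K → κ} {m J : ℕ} (hp : Hier p m J) {i : ℕ} (hi : i < J) (f : κ → ℝ) :
    ∑ c ∈ univ.image (p (i + 1)), ∑ c' ∈ TT p i c, f c' = ∑ c' ∈ univ.image (p i), f c' := by
  rw [← sum_biUnion]
  · congr 1
    ext c'
    simp only [mem_biUnion, mem_image, mem_univ, true_and, TT, mem_filter]
    constructor
    · rintro ⟨c, -, k, -, hk⟩
      exact ⟨k, hk⟩
    · rintro ⟨k, hk⟩
      exact ⟨p (i + 1) k, ⟨k, rfl⟩, k, rfl, hk⟩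
  · intro c _ c₂ _ hcc
    rw [Function.onFun, Finset.disjoint_left]
    intro c' h1 h2
    simp only [TT, mem_image, mem_filter, mem_univ, true_and] at h1 h2
    obtain ⟨k, hk, hk'⟩ := h1
    obtain ⟨k₂, hk₂, hk₂'⟩ := h2
    apply hcc
    rw [← hk, ← hk₂]
    exact hp.refine i hi k k₂ (hk'.trans hk₂'.symm)

theorem VV_succ (hw : IsWt w) {p : ℕ → K → κ} {m J : ℕ} (hp : Hier p m J) (G : (K → α) → ℝ)
    {i : ℕ} (hi : i < J) :
    VV w p G (i + 1) = VV w p G i + ∑ c ∈ univ.image (p (i + 1)), RR w p G i c := by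
  unfold VV
  rw [← sum_TT hp hi, ← sum_add_distrib]
  refine sum_congr rfl fun c _ => ?_
  have h := Ex_proj hw (TT p i c) (QQ p i) (QQ p (i + 1) c) G
    (fun a _ b _ hab => QQ_disj i hab) (fun a ha => QQ_sub hp hi ha)
  rw [← h]
  unfold RR
  ring

theorem VV_eq (hw : IsWt w) {p : ℕ → K → κ} {m J : ℕ} (hp : Hier p m J) (G : (K → α) → ℝ)
    {i : ℕ} (hi : i ≤ J) :
    VV w p G i = VV w p G 0
      + ∑ j ∈ range i, ∑ c ∈ univ.image (p (j + 1)), RR w p G j c := by
  induction i with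
  | zero => simp
  | succ i ih =>
    rw [VV_succ hw hp G (by omega), ih (by omega), sum_range_succ]
    ring

theorem VV_zero {p : ℕ → K → κ} {m J : ℕ} (hp : Hier p m J) (G : (K → α) → ℝ) :
    VV w p G 0 = ∑ k, Vr w (PE w {k} G) := by
  unfold VV
  rw [sum_image (fun a _ b _ h => hp.inj h)]
  refine sum_congr rfl fun k _ => ?_
  have : QQ p 0 (p 0 k) = {k} := by
    ext k'
    simp only [QQ, mem_filter, mem_univ, true_and, mem_singleton]
    exact ⟨fun h => hp.inj h, fun h => by rw [h]⟩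
  rw [this]

theorem VV_le (hw : IsWt w) {p : ℕ → K → κ} {m J : ℕ} (hp : Hier p m J) {G : (K → α) → ℝ} {C0 : ℝ}
    (hG : ∀ i ≤ J, ∀ c, ∀ u u' : K → α, (∀ k, p i k ≠ c → u k = u' k) →
      |G u - G u'| ≤ C0 * (m : ℝ) ^ i) {i : ℕ} (hi : i ≤ J) :
    VV w p G i ≤ C0 ^ 2 * Fintype.card K := by
  have h1 : ∀ c ∈ univ.image (p i), Vr w (PE w (QQ p i c) G) ≤ C0 ^ 2 * (m : ℝ) ^ (2 * i) := by
    intro c _
    rw [Vr_PE hw]
    refine Ex_le_of_le hw fun u => ?_
    have h2 := PE_sub_le hw (hG i hi c) u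
    rw [← sq_abs]
    calc |PE w (QQ p i c) G u - Ex w G| ^ 2 ≤ (C0 * (m : ℝ) ^ i) ^ 2 :=
          pow_le_pow_left₀ (abs_nonneg _) h2 2
      _ = C0 ^ 2 * (m : ℝ) ^ (2 * i) := by rw [mul_pow, ← pow_mul, mul_comm i 2]
  unfold VV
  refine (sum_le_sum h1).trans ?_
  rw [sum_const, nsmul_eq_mul]
  have h3 : (((univ.image (p i)).card * m ^ (2 * i) : ℕ) : ℝ) ≤ (Fintype.card K : ℝ) := by
    exact_mod_cast hp.count i hi
  push_cast at h3
  nlinarith [sq_nonneg C0]

theorem proj (h : Spec_core) : Spec_proj := by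
  intro C0 v0 hC0 hv0
  obtain ⟨m0, Ac, hAc, hcore⟩ := h C0 (v0 / 2) hC0 (by positivity)
  obtain ⟨J0, hJ0⟩ := exists_nat_ge (Ac * C0 ^ 2 / (v0 / 2))
  refine ⟨max 2 m0, J0 + 1, le_max_left _ _, by omega, ?_⟩
  intro K α κ _ _ _ _ w hw p hp G hG
  set m := max 2 m0 with hm
  set J := J0 + 1 with hJ
  have hm0 : m0 ≤ m := le_max_right _ _
  have hm2 : 2 ≤ m := le_max_left _ _
  have hmpos : (0 : ℝ) < m := by
    have : 0 < m := by omega
    exact_mod_cast this
  have hJpos : (0 : ℝ) < J := by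
    have : 0 < J := by omega
    exact_mod_cast this
  have hJA : Ac * C0 ^ 2 ≤ v0 / 2 * J := by
    have h1 : Ac * C0 ^ 2 / (v0 / 2) ≤ J := by
      refine hJ0.trans ?_
      rw [hJ]; push_cast; linarith
    rw [div_le_iff₀ (by positivity)] at h1
    linarith
  have hK0 : (0 : ℝ) ≤ Fintype.card K := Nat.cast_nonneg _
  -- choice of the scale
  have hsum : ∑ i ∈ range J, ∑ c ∈ univ.image (p (i + 1)), RR w p G i c
      ≤ C0 ^ 2 * Fintype.card K := by
    have h1 := VV_eq hw hp G (le_refl J)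
    have h2 := VV_le hw hp hG (le_refl J)
    have h3 := VV_nonneg hw p G 0
    linarith
  obtain ⟨i, hi, hRi⟩ : ∃ i ∈ range J, ∑ c ∈ univ.image (p (i + 1)), RR w p G i c
      ≤ C0 ^ 2 * Fintype.card K / J := by
    apply Finset.exists_le_of_sum_le (nonempty_range_iff.2 (by omega))
    rw [sum_const, card_range, nsmul_eq_mul, mul_div_cancel₀ _ hJpos.ne']
    exact hsum
  have hi : i < J := mem_range.1 hi
  -- the core lemma for every box of level `i + 1`
  have hbox : ∀ c ∈ univ.image (p (i + 1)), ∑ c' ∈ TT p i c, Vr w (PE w (QQ p i c') G) ≤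
      v0 / 2 * (m : ℝ) ^ 2 * ((m : ℝ) ^ i) ^ 2 + Ac * RR w p G i c := by
    intro c hc
    have hcard : (TT p i c).card ≤ m ^ 2 := by
      obtain ⟨k, -, hk⟩ := mem_image.1 hc
      rw [← hk]
      exact hp.child i hi k
    have h1 := hcore m hm0 K α κ w hw (TT p i c) (QQ p i)
      (fun c' u => PE w (QQ p i c') G u - Ex w G)
      (fun u => PE w (QQ p (i + 1) c) G u - Ex w G) ((m : ℝ) ^ i) (by positivity) hcard
      (fun a _ b _ hab => QQ_disj i hab)
      (fun a _ x y hxy => by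
        show PE w (QQ p i a) G x - Ex w G = PE w (QQ p i a) G y - Ex w G
        rw [PE_dependsOn (w := w) (QQ p i a) G hxy])
      (fun a _ => by rw [Ex_sub, Ex_PE hw, Ex_const hw, sub_self])
      (fun a _ u => PE_sub_le hw (hG i hi.le a) u)
      (fun u => by
        have h2 := PE_sub_le hw (hG (i + 1) (by omega) c) u
        rw [pow_succ] at h2
        calc _ ≤ C0 * ((m : ℝ) ^ i * m) := h2
          _ = C0 * m * (m : ℝ) ^ i := by ring)
    simp only [Vr_PE hw]
    exact h1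
  have hVi : VV w p G i ≤ v0 * Fintype.card K := by
    have h1 : VV w p G i ≤ ∑ c ∈ univ.image (p (i + 1)),
        (v0 / 2 * (m : ℝ) ^ 2 * ((m : ℝ) ^ i) ^ 2 + Ac * RR w p G i c) := by
      unfold VV
      rw [← sum_TT hp hi]
      exact sum_le_sum hbox
    rw [sum_add_distrib, sum_const, nsmul_eq_mul, ← mul_sum] at h1
    have h2 : (((univ.image (p (i + 1))).card * m ^ (2 * (i + 1)) : ℕ) : ℝ)
        ≤ (Fintype.card K : ℝ) := by
      exact_mod_cast hp.count (i + 1) (by omega)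
    push_cast at h2
    have h3 : ((univ.image (p (i + 1))).card : ℝ) * (v0 / 2 * (m : ℝ) ^ 2 * ((m : ℝ) ^ i) ^ 2)
        ≤ v0 / 2 * Fintype.card K := by
      calc _ = v0 / 2 * (((univ.image (p (i + 1))).card : ℝ) * (m : ℝ) ^ (2 * (i + 1))) := by ring
        _ ≤ _ := mul_le_mul_of_nonneg_left h2 (by positivity)
    have h4 : Ac * ∑ c ∈ univ.image (p (i + 1)), RR w p G i c ≤ v0 / 2 * Fintype.card K := by
      calc _ ≤ Ac * (C0 ^ 2 * Fintype.card K / J) := mul_le_mul_of_nonneg_left hRi hAc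
        _ = (Ac * C0 ^ 2) * Fintype.card K / J := by ring
        _ ≤ (v0 / 2 * J) * Fintype.card K / J := by gcongr
        _ = v0 / 2 * Fintype.card K := by field_simp
    linarith
  rw [← VV_zero (w := w) hp G]
  refine le_trans ?_ hVi
  rw [VV_eq hw hp G hi.le]
  have : 0 ≤ ∑ j ∈ range i, ∑ c ∈ univ.image (p (j + 1)), RR w p G j c :=
    sum_nonneg fun j _ => sum_nonneg fun c _ => RR_nonneg hw p G j c
  linarith

end

end Pool.Agent.Helper32.Matching
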